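import Mathlib
import Pool.Agent.Helper59.EPDefs
import Pool.Agent.Helper60.RF.SpecDef
import Pool.Agent.Helper59.EPl

open MeasureTheory

namespace Pool.Agent.Results.MP_297da0_an.FiniteDescription

open Pool.Agent.Helper65 Pool.Agent.Helper59.EP

/-- For every non-special rational function `P` of degree at least two there are a unique
probability measure `μ` without atoms and with constant Jacobian `deg P`, the measure of maximal
entropy of `P`, and a finite set `S` of rational functions such that the rational functions of
degree at least two whose measure of maximal entropy is `μ` are exactly the `Y ∘ P^{∘k}`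
with `Y ∈ S` and `k ≥ 0`. -/
theorem result (P : RatFunc ℂ) (hP : 2 ≤ deg P) (hs : ¬ Special P) :
    ∃ μ : Measure ℂ, (∀ ν, IsMME P ν ↔ ν = μ) ∧ ∃ S : Finset (RatFunc ℂ), ∀ X,
      (2 ≤ deg X ∧ IsMME X μ) ↔ ∃ Y ∈ S, ∃ k : ℕ, X = comp Y (iter P k) :=
  finite_description' hP hs

end Pool.Agent.Results.MP_297da0_an.FiniteDescription
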